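import Pool.Agent.Y982.HS.Ineq

/-!
# Speedup of parallel Markov chains: the survival functions
-/

open MeasureTheory ProbabilityTheory Filter Topology
open scoped ENNReal

noncomputable section

namespace Pool.Agent.Y982.HS

variable {V : Type*} [MeasurableSpace V] (κ : Kernel V V) (A : Set V)

/-- probability that the chain started at `x` avoids `A` up to time `t` (first step recursion) -/
def S : ℕ → V → ℝ≥0∞
  | 0 => Aᶜ.indicator (fun _ => 1)
  | t + 1 => Aᶜ.indicator (fun x => ∫⁻ y, S t y ∂(κ x))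

/-- law of the position at time `t` on the event that `A` has been avoided up to time `t` -/
def mu (u : V) : ℕ → Measure V
  | 0 => (Measure.dirac u).restrict Aᶜ
  | t + 1 => ((mu u t).bind κ).restrict Aᶜ

variable {κ A}

theorem measurable_S (hA : MeasurableSet A) (t : ℕ) : Measurable (S κ A t) := by
  induction t with
  | zero => exact measurable_const.indicator hA.compl
  | succ t ih => exact (ih.lintegral_kernel).indicator hA.compl

theorem S_eq_zero {x : V} (hx : x ∈ A) (t : ℕ) : S κ A t x = 0 := by cases t <;> simp [S, hx]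

theorem ind_S (t : ℕ) : Aᶜ.indicator (S κ A t) = S κ A t := by
  ext x
  by_cases hx : x ∈ A
  · simp [hx, S_eq_zero hx]
  · simp [hx]

theorem mu_self (hA : MeasurableSet A) (u : V) (t : ℕ) : mu κ A u t A = 0 := by
  cases t <;> simp [mu, Measure.restrict_apply hA]

theorem mu_ae (hA : MeasurableSet A) (u : V) (t : ℕ) : ∀ᵐ x ∂(mu κ A u t), x ∉ A := by
  rw [ae_iff]
  simpa using mu_self hA u t

theorem S_succ {x : V} (hx : x ∉ A) (t : ℕ) : S κ A (t + 1) x = ∫⁻ y, S κ A t y ∂(κ x) := by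
  simp [S, hx]

theorem S_zero {x : V} (hx : x ∉ A) : S κ A 0 x = 1 := by
  simp [S, hx]

theorem lintegral_mu (hA : MeasurableSet A) (u : V) (t s : ℕ) :
    ∫⁻ x, S κ A s x ∂(mu κ A u t) = S κ A (t + s) u := by
  induction t generalizing s with
  | zero =>
    rw [mu, ← lintegral_indicator hA.compl, ind_S, lintegral_dirac' _ (measurable_S hA s), zero_add]
  | succ t ih =>
    rw [mu, ← lintegral_indicator hA.compl, ind_S,
      Measure.lintegral_bind κ.measurable.aemeasurable (measurable_S hA s).aemeasurable]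
    have h : t + 1 + s = t + (s + 1) := by ring
    rw [h, ← ih (s + 1)]
    refine lintegral_congr_ae ?_
    filter_upwards [mu_ae hA u t] with x hx
    rw [S_succ hx]

theorem mu_univ (hA : MeasurableSet A) (u : V) (t : ℕ) : mu κ A u t Set.univ = S κ A t u := by
  have h := lintegral_mu (κ := κ) hA u t 0
  rw [add_zero] at h
  rw [← h, ← lintegral_one]
  refine lintegral_congr_ae ?_
  filter_upwards [mu_ae hA u t] with x hx
  rw [S_zero hx]

theorem S_succ_le [IsMarkovKernel κ] (t : ℕ) (x : V) : S κ A (t + 1) x ≤ S κ A t x := by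
  induction t generalizing x with
  | zero =>
    by_cases hx : x ∈ A
    · simp [S_eq_zero hx]
    · rw [S_succ hx, S_zero hx]
      calc ∫⁻ y, S κ A 0 y ∂(κ x) ≤ ∫⁻ _, 1 ∂(κ x) := by
            refine lintegral_mono fun y => ?_
            by_cases hy : y ∈ A
            · simp [S_eq_zero hy]
            · rw [S_zero hy]
        _ = 1 := by simp
  | succ t ih =>
    by_cases hx : x ∈ A
    · simp [S_eq_zero hx]
    · rw [S_succ hx, S_succ hx]
      exact lintegral_mono fun y => ih y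

theorem S_anti [IsMarkovKernel κ] (x : V) : Antitone (fun t => S κ A t x) :=
  antitone_nat_of_succ_le fun t => S_succ_le t x

theorem S_le_one [IsMarkovKernel κ] (t : ℕ) (x : V) : S κ A t x ≤ 1 := by
  refine (S_anti x (Nat.zero_le t)).trans ?_
  show S κ A 0 x ≤ 1
  by_cases hx : x ∈ A
  · simp [S_eq_zero hx]
  · rw [S_zero hx]

theorem S_ne_top [IsMarkovKernel κ] (t : ℕ) (x : V) : S κ A t x ≠ ∞ :=
  ne_top_of_le_ne_top ENNReal.one_ne_top (S_le_one t x)

/-- the supremum over the starting point outside of `A` -/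
def HH (κ : Kernel V V) (A : Set V) (τ : ℕ → ℝ≥0∞) (k : ℕ) : ℝ≥0∞ :=
  ⨆ x : V, ⨆ _ : x ∉ A, ∑' s, τ s * S κ A s x ^ k

theorem le_HH (τ : ℕ → ℝ≥0∞) {k : ℕ} (hk : 1 ≤ k) (x : V) :
    ∑' s, τ s * S κ A s x ^ k ≤ HH κ A τ k := by
  by_cases hx : x ∈ A
  · simp [S_eq_zero hx, zero_pow (by omega : k ≠ 0)]
  · exact le_iSup₂ (f := fun (x : V) (_ : x ∉ A) => ∑' s, τ s * S κ A s x ^ k) x hx

theorem jensen_nat {α : Type*} [MeasurableSpace α] (ν : Measure α) {k : ℕ} (hk : 1 ≤ k)
    {φ : α → ℝ≥0∞} (hφ : Measurable φ) (hM : ν Set.univ ≠ ∞) (hI : ∫⁻ x, φ x ∂ν ≠ ∞) :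
    (∫⁻ x, φ x ∂ν) ^ k ≤ ν Set.univ ^ (k - 1) * ∫⁻ x, φ x ^ k ∂ν := by
  have h := jensen ν (r := (k : ℝ)) (by exact_mod_cast hk) hφ hM hI
  have h1 : ((k : ℝ) - 1) = ((k - 1 : ℕ) : ℝ) := by
    rw [Nat.cast_sub hk, Nat.cast_one]
  rw [h1, ENNReal.rpow_natCast, ENNReal.rpow_natCast] at h
  simpa only [ENNReal.rpow_natCast] using h

/-- conditional survival probabilities -/
theorem sum_cond [IsMarkovKernel κ] (hA : MeasurableSet A) (τ : ℕ → ℝ≥0∞) {k : ℕ} (hk : 1 ≤ k)
    (u : V) (t : ℕ) :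
    ∑' s, τ s * (S κ A (t + s) u / S κ A t u) ^ k ≤ HH κ A τ k := by
  by_cases h0 : S κ A t u = 0
  · have h1 : ∀ s, S κ A (t + s) u = 0 := fun s => by
      have := S_anti (κ := κ) (A := A) u (Nat.le_add_right t s)
      simp only [h0] at this
      exact le_antisymm this zero_le
    simp [h1, zero_pow (by omega : k ≠ 0)]
  set m := S κ A t u with hm
  have hmt : m ≠ ∞ := S_ne_top t u
  have h1 : ∀ s, (S κ A (t + s) u / m) ^ k ≤ m⁻¹ * ∫⁻ x, S κ A s x ^ k ∂(mu κ A u t) := by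
    intro s
    have h2 := jensen_nat (mu κ A u t) hk (measurable_S (κ := κ) hA s)
      (by rw [mu_univ hA]; exact hmt) (by rw [lintegral_mu hA]; exact S_ne_top _ _)
    rw [mu_univ hA, lintegral_mu hA, ← hm] at h2
    rw [div_eq_mul_inv, mul_pow]
    calc S κ A (t + s) u ^ k * m⁻¹ ^ k
        ≤ (m ^ (k - 1) * ∫⁻ x, S κ A s x ^ k ∂(mu κ A u t)) * m⁻¹ ^ k := by gcongr
      _ = (m ^ (k - 1) * m⁻¹ ^ (k - 1)) * (m⁻¹ * ∫⁻ x, S κ A s x ^ k ∂(mu κ A u t)) := by
          have : m⁻¹ ^ k = m⁻¹ ^ (k - 1) * m⁻¹ := by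
            rw [← pow_succ]
            congr 1
            omega
          rw [this]
          ring
      _ = m⁻¹ * ∫⁻ x, S κ A s x ^ k ∂(mu κ A u t) := by
          rw [← mul_pow, ENNReal.mul_inv_cancel h0 hmt, one_pow, one_mul]
  calc ∑' s, τ s * (S κ A (t + s) u / m) ^ k
      ≤ ∑' s, τ s * (m⁻¹ * ∫⁻ x, S κ A s x ^ k ∂(mu κ A u t)) := by
        refine ENNReal.tsum_le_tsum fun s => ?_
        gcongr
        exact h1 s
    _ = m⁻¹ * ∫⁻ x, ∑' s, τ s * S κ A s x ^ k ∂(mu κ A u t) := by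
        rw [lintegral_tsum (fun s => (((measurable_S hA s).pow_const k).const_mul _).aemeasurable),
          ← ENNReal.tsum_mul_left]
        refine tsum_congr fun s => ?_
        rw [lintegral_const_mul _ ((measurable_S hA s).pow_const k)]
        ring
    _ ≤ m⁻¹ * ∫⁻ _, HH κ A τ k ∂(mu κ A u t) := by
        gcongr with x
        exact le_HH τ hk x
    _ = HH κ A τ k := by
        rw [lintegral_const, mu_univ hA, ← hm, mul_comm (HH κ A τ k), ← mul_assoc,
          ENNReal.inv_mul_cancel h0 hmt, one_mul]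

theorem tsum_S_ne_top [IsMarkovKernel κ] (hA : MeasurableSet A) (τ : ℕ → ℝ≥0∞)
    (hτ : ∀ s, 1 ≤ s → τ s = 1) {k : ℕ} (hk : 1 ≤ k) (hH : HH κ A τ k ≠ ∞) (u : V) :
    ∑' t, S κ A t u ≠ ∞ := by
  obtain ⟨n, hn⟩ := ENNReal.exists_nat_gt (ENNReal.mul_ne_top hH
    (ENNReal.pow_ne_top (n := k) (ENNReal.ofNat_ne_top (n := 2))))
  have hn0 : n ≠ 0 := by
    rintro rfl
    simp at hn
  have h1 : ∀ x, S κ A n x ≤ 2⁻¹ := by
    intro x
    have h2 : (n : ℝ≥0∞) * S κ A n x ^ k ≤ HH κ A τ k := by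
      calc (n : ℝ≥0∞) * S κ A n x ^ k = ∑ s ∈ Finset.range n, S κ A n x ^ k := by
            simp
        _ ≤ ∑ s ∈ Finset.range n, τ (s + 1) * S κ A (s + 1) x ^ k := by
            refine Finset.sum_le_sum fun s hs => ?_
            rw [hτ (s + 1) (by omega), one_mul]
            gcongr
            exact S_anti (κ := κ) (A := A) x (by
              have := Finset.mem_range.1 hs
              omega)
        _ ≤ ∑' s, τ (s + 1) * S κ A (s + 1) x ^ k := ENNReal.sum_le_tsum _
        _ ≤ ∑' s, τ s * S κ A s x ^ k := by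
            rw [tsum_eq_zero_add' (f := fun s => τ s * S κ A s x ^ k) ENNReal.summable]
            exact le_add_self
        _ ≤ HH κ A τ k := le_HH τ hk x
    have h3 : (n : ℝ≥0∞) * S κ A n x ^ k * 2 ^ k ≤ n := by
      calc (n : ℝ≥0∞) * S κ A n x ^ k * 2 ^ k ≤ HH κ A τ k * 2 ^ k := by gcongr
        _ ≤ n := hn.le
    have h4 : S κ A n x ^ k * 2 ^ k ≤ 1 := by
      have h5 : (n : ℝ≥0∞) * (S κ A n x ^ k * 2 ^ k) ≤ n * 1 := by
        rw [mul_one, ← mul_assoc]
        exact h3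
      exact (ENNReal.mul_le_mul_iff_right (by exact_mod_cast hn0) (ENNReal.natCast_ne_top n)).1 h5
    rw [← mul_pow] at h4
    have h6 : S κ A n x * 2 ≤ 1 := by
      by_contra hcon
      push Not at hcon
      have := lt_of_lt_of_le hcon (le_self_pow₀ hcon.le (by omega : k ≠ 0))
      exact absurd h4 (not_le.2 this)
    rw [← ENNReal.mul_le_mul_iff_left (c := 2) (by norm_num) (by norm_num),
      ENNReal.inv_mul_cancel (by norm_num) (by norm_num)]
    exact h6
  have h2 : ∀ t, S κ A (t + n) u ≤ 2⁻¹ * S κ A t u := by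
    intro t
    rw [← lintegral_mu hA, ← mu_univ hA]
    calc ∫⁻ x, S κ A n x ∂(mu κ A u t) ≤ ∫⁻ _, 2⁻¹ ∂(mu κ A u t) := lintegral_mono h1
      _ = 2⁻¹ * mu κ A u t Set.univ := lintegral_const _
  have h3 : ∀ m, ∑ t ∈ Finset.range m, S κ A t u ≤ 2 * n := by
    intro m
    set T := ∑ t ∈ Finset.range m, S κ A t u with hT
    have hfinT : T ≠ ∞ := (ENNReal.sum_lt_top.2 fun t _ => (S_ne_top t u).lt_top).ne
    have h4 : T ≤ n + 2⁻¹ * T := by
      calc T ≤ ∑ t ∈ Finset.range (n + m), S κ A t u := by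
            refine Finset.sum_le_sum_of_subset ?_
            exact Finset.range_mono (by omega)
        _ = ∑ t ∈ Finset.range n, S κ A t u + ∑ t ∈ Finset.range m, S κ A (n + t) u := by
            rw [Finset.sum_range_add]
        _ ≤ ∑ t ∈ Finset.range n, 1 + ∑ t ∈ Finset.range m, 2⁻¹ * S κ A t u := by
            gcongr with t _ t _
            · exact S_le_one t u
            · rw [add_comm]; exact h2 t
        _ = n + 2⁻¹ * T := by
            rw [hT, Finset.mul_sum]; simp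
    have h5 : T = 2⁻¹ * T + 2⁻¹ * T := by
      rw [← add_mul, ENNReal.inv_two_add_inv_two, one_mul]
    have h6 : 2⁻¹ * T ≤ n := by
      have hh : 2⁻¹ * T ≠ ∞ := ENNReal.mul_ne_top (by norm_num) hfinT
      have : 2⁻¹ * T + 2⁻¹ * T ≤ n + 2⁻¹ * T := by
        rw [← h5]
        exact h4
      exact (ENNReal.add_le_add_iff_right hh).1 this
    calc T = 2⁻¹ * T + 2⁻¹ * T := h5
      _ ≤ n + n := add_le_add h6 h6
      _ = 2 * n := by ring
  have h6 : ∑' t, S κ A t u ≤ 2 * n := by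
    rw [ENNReal.tsum_eq_iSup_nat]
    exact iSup_le h3
  exact ne_top_of_le_ne_top (ENNReal.mul_ne_top (by norm_num) (ENNReal.natCast_ne_top n)) h6

/-- joint survival function of `j` independent chains -/
def ff (κ : Kernel V V) (A : Set V) {j : ℕ} (u : Fin j → V) (s : ℕ) : ℝ≥0∞ := ∏ i, S κ A s (u i)

/-- weighted tails -/
def FF (κ : Kernel V V) (A : Set V) (τ : ℕ → ℝ≥0∞) {j : ℕ} (u : Fin j → V) (s : ℕ) : ℝ≥0∞ :=
  ∑' t, τ t * ff κ A u (t + s)

theorem ff_split [IsMarkovKernel κ] {j : ℕ} (u : Fin j → V) (t s : ℕ) :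
    ff κ A u (t + s) = ff κ A u t * ∏ i, (S κ A (t + s) (u i) / S κ A t (u i)) := by
  unfold ff
  rw [← Finset.prod_mul_distrib]
  refine Finset.prod_congr rfl fun i _ => ?_
  by_cases h0 : S κ A t (u i) = 0
  · have := S_anti (κ := κ) (A := A) (u i) (Nat.le_add_right t s)
    simp only [h0] at this
    rw [h0, zero_mul]
    exact le_antisymm this zero_le
  · rw [ENNReal.mul_div_cancel h0 (S_ne_top _ _)]

theorem ff_anti [IsMarkovKernel κ] {j : ℕ} (u : Fin j → V) : Antitone (ff κ A u) := by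
  intro s t hst
  exact Finset.prod_le_prod' fun i _ => S_anti (κ := κ) (A := A) (u i) hst

theorem sum_prod_pow (τ : ℕ → ℝ≥0∞) {j k : ℕ} (hj : 1 ≤ j) (c : ℕ → Fin j → ℝ≥0∞)
    (hc : ∀ s i, c s i ≠ ∞) (H : ℝ≥0∞) (h : ∀ i, ∑' s, τ s * c s i ^ k ≤ H) :
    ∑' s, τ s * (∏ i, c s i) ^ ((k : ℝ) / j) ≤ H := by
  have hj0 : (j : ℝ≥0∞) ≠ 0 := by exact_mod_cast (by omega : j ≠ 0)
  refine (ENNReal.mul_le_mul_iff_right hj0 (ENNReal.natCast_ne_top j)).1 ?_
  calc (j : ℝ≥0∞) * ∑' s, τ s * (∏ i, c s i) ^ ((k : ℝ) / j)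
      = ∑' s, τ s * ((j : ℝ≥0∞) * (∏ i, c s i) ^ ((k : ℝ) / j)) := by
        rw [← ENNReal.tsum_mul_left]
        refine tsum_congr fun s => ?_
        ring
    _ ≤ ∑' s, τ s * ∑ i, c s i ^ k := by
        refine ENNReal.tsum_le_tsum fun s => ?_
        gcongr
        exact amgm hj _ (hc s)
    _ = ∑ i, ∑' s, τ s * c s i ^ k := by
        rw [← Summable.tsum_finsetSum (fun i _ => ENNReal.summable)]
        refine tsum_congr fun s => ?_
        rw [Finset.mul_sum]
    _ ≤ ∑ _i : Fin j, H := Finset.sum_le_sum fun i _ => h i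
    _ = j * H := by simp

theorem div_ne_top [IsMarkovKernel κ] (u : V) (t s : ℕ) :
    S κ A (t + s) u / S κ A t u ≠ ∞ := by
  by_cases h0 : S κ A t u = 0
  · have := S_anti (κ := κ) (A := A) u (Nat.le_add_right t s)
    simp only [h0] at this
    have h1 : S κ A (t + s) u = 0 := le_antisymm this zero_le
    rw [h1]
    simp
  · exact (ENNReal.div_lt_top (S_ne_top _ _) h0).ne

/-- the main inequality for the weights `τ` -/
theorem main_ineq [IsMarkovKernel κ] (hA : MeasurableSet A) (τ : ℕ → ℝ≥0∞)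
    (hτ : ∀ s, 1 ≤ s → τ s = 1) (hτ1 : τ 0 ≤ 1) {j k : ℕ} (hj : 1 ≤ j) (hjk : j ≤ k)
    (u : Fin j → V)
    (htel : FF κ A τ u 0 ≠ ∞ → FF κ A τ u 0 ^ ((k : ℝ) / j) ≤ ENNReal.ofReal ((k : ℝ) / j) *
      ∑' s, τ s * (ff κ A u s * FF κ A τ u s ^ ((k : ℝ) / j - 1))) :
    (j : ℝ≥0∞) * ∑' s, τ s * ff κ A u s ≤ k * HH κ A τ k := by
  have hk : 1 ≤ k := hj.trans hjk
  have hjr : (0 : ℝ) < j := by exact_mod_cast hj
  have hr : (1 : ℝ) ≤ (k : ℝ) / j := by
    rw [le_div_iff₀ hjr, one_mul]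
    exact_mod_cast hjk
  have hτ2 : ∀ s, τ s ≤ 1 := by
    intro s
    cases s with
    | zero => exact hτ1
    | succ s => rw [hτ (s + 1) (by omega)]
  by_cases hH : HH κ A τ k = ∞
  · rw [hH, ENNReal.mul_top (by exact_mod_cast (by omega : k ≠ 0))]
    exact le_top
  set r : ℝ := (k : ℝ) / j with hrdef
  have hF0 : FF κ A τ u 0 = ∑' s, τ s * ff κ A u s := by simp [FF]
  set M := ∑' s, τ s * ff κ A u s with hM
  have hMfin : M ≠ ∞ := by
    have h1 : M ≤ ∑' s, S κ A s (u ⟨0, by omega⟩) := by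
      refine ENNReal.tsum_le_tsum fun s => ?_
      calc τ s * ff κ A u s ≤ 1 * ff κ A u s := by gcongr; exact hτ2 s
        _ = ff κ A u s := one_mul _
        _ ≤ S κ A s (u ⟨0, by omega⟩) := by
            unfold ff
            rw [← Finset.mul_prod_erase _ _ (Finset.mem_univ (⟨0, by omega⟩ : Fin j))]
            calc S κ A s (u ⟨0, by omega⟩) * _ ≤ S κ A s (u ⟨0, by omega⟩) * 1 := by
                  gcongr
                  exact Finset.prod_le_one' fun i _ => S_le_one _ _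
              _ = _ := mul_one _
    exact ne_top_of_le_ne_top (tsum_S_ne_top hA τ hτ hk hH _) h1
  by_cases hM0 : M = 0
  · rw [hM0]; simp
  have hown : ∑' s, τ s * ff κ A u s ^ r ≤ HH κ A τ k :=
    sum_prod_pow τ hj (fun s i => S κ A s (u i)) (fun s i => S_ne_top _ _) _
      fun i => le_HH τ hk (u i)
  -- Jensen
  have hJ : ∑' s, τ s * FF κ A τ u s ^ r ≤ M ^ r * HH κ A τ k := by
    have h1 : ∀ s, FF κ A τ u s ^ r ≤ M ^ (r - 1) * ∑' t, (τ t * ff κ A u t) *
        (∏ i, (S κ A (t + s) (u i) / S κ A t (u i))) ^ r := by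
      intro s
      let ν : Measure ℕ := Measure.count.withDensity (fun t => τ t * ff κ A u t)
      have hν : ∀ φ : ℕ → ℝ≥0∞, ∫⁻ t, φ t ∂ν = ∑' t, (τ t * ff κ A u t) * φ t := by
        intro φ
        rw [lintegral_withDensity_eq_lintegral_mul _ (measurable_of_countable _)
          (measurable_of_countable _), lintegral_count]
        rfl
      have hνu : ν Set.univ = M := by
        rw [← lintegral_one, hν]
        simp [hM]
      have hI : ∫⁻ t, ∏ i, (S κ A (t + s) (u i) / S κ A t (u i)) ∂ν = FF κ A τ u s := by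
        rw [hν]
        unfold FF
        refine tsum_congr fun t => ?_
        rw [ff_split u t s, mul_assoc]
      have hfin : FF κ A τ u s ≠ ∞ := by
        refine ne_top_of_le_ne_top hMfin ?_
        rw [← hF0]
        unfold FF
        refine ENNReal.tsum_le_tsum fun t => ?_
        gcongr
        exact ff_anti u (by omega)
      have := jensen ν hr (φ := fun t => ∏ i, (S κ A (t + s) (u i) / S κ A t (u i)))
        (measurable_of_countable _) (by rw [hνu]; exact hMfin) (by rw [hI]; exact hfin)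
      rw [hI, hνu, hν] at this
      exact this
    calc ∑' s, τ s * FF κ A τ u s ^ r
        ≤ ∑' s, τ s * (M ^ (r - 1) * ∑' t, (τ t * ff κ A u t) *
        (∏ i, (S κ A (t + s) (u i) / S κ A t (u i))) ^ r) := by
          refine ENNReal.tsum_le_tsum fun s => ?_
          gcongr
          exact h1 s
      _ = M ^ (r - 1) * ∑' t, (τ t * ff κ A u t) *
          ∑' s, τ s * (∏ i, (S κ A (t + s) (u i) / S κ A t (u i))) ^ r := by
          simp_rw [← ENNReal.tsum_mul_left]
          rw [ENNReal.tsum_comm]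
          refine tsum_congr fun t => tsum_congr fun s => ?_
          ring
      _ ≤ M ^ (r - 1) * ∑' t, (τ t * ff κ A u t) * HH κ A τ k := by
          gcongr with t
          exact sum_prod_pow τ hj (fun s i => S κ A (t + s) (u i) / S κ A t (u i))
            (fun s i => div_ne_top _ _ _) _ fun i => sum_cond hA τ hk (u i) t
      _ = M ^ r * HH κ A τ k := by
          rw [ENNReal.tsum_mul_right, ← hM, ← mul_assoc, pow_split hr]
  have hfinal := core hr τ (ff κ A u) (FF κ A τ u) (HH κ A τ k) M hMfin hM0 hJ hown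
    (by rw [← hF0]; exact htel (by rw [hF0]; exact hMfin))
  calc (j : ℝ≥0∞) * M ≤ j * (ENNReal.ofReal r * HH κ A τ k) := by gcongr
    _ = k * HH κ A τ k := by
        rw [← mul_assoc]
        congr 1
        rw [← ENNReal.ofReal_natCast, ← ENNReal.ofReal_mul hjr.le, hrdef, mul_div_cancel₀ _ hjr.ne',
          ENNReal.ofReal_natCast]

end Pool.Agent.Y982.HS
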