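import Pool.Agent.Y982.HS.Chain

/-!
# Speedup of parallel Markov chains: the two inequalities for the survival functions
-/

open MeasureTheory ProbabilityTheory Filter Topology
open scoped ENNReal

noncomputable section

namespace Pool.Agent.Y982.HS

variable {V : Type*} [MeasurableSpace V] {κ : Kernel V V} {A : Set V}

/-- constant weights -/
def w1 : ℕ → ℝ≥0∞ := fun _ => 1

/-- trapezoidal weights -/
def wh : ℕ → ℝ≥0∞ := fun s => if s = 0 then 2⁻¹ else 1

theorem tsum_shift (f : ℕ → ℝ≥0∞) : ∑' s, f s = f 0 + ∑' s, f (s + 1) :=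
  tsum_eq_zero_add' ENNReal.summable

theorem tsum_w1 (f : ℕ → ℝ≥0∞) : ∑' s, w1 s * f s = ∑' s, f s := by
  simp [w1]

theorem tsum_wh (f : ℕ → ℝ≥0∞) : ∑' s, wh s * f s = 2⁻¹ * f 0 + ∑' s, f (s + 1) := by
  rw [tsum_shift]
  simp [wh]

theorem tsum_wh_add (f : ℕ → ℝ≥0∞) : ∑' s, wh s * f s + 2⁻¹ * f 0 = ∑' s, f s := by
  rw [tsum_wh, tsum_shift f, add_right_comm, ← add_mul, ENNReal.inv_two_add_inv_two, one_mul]

theorem tel_w1 {r : ℝ} (hr : 1 ≤ r) {j : ℕ} (u : Fin j → V) (hfin : FF κ A w1 u 0 ≠ ∞) :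
    FF κ A w1 u 0 ^ r ≤ ENNReal.ofReal r *
      ∑' s, w1 s * (ff κ A u s * FF κ A w1 u s ^ (r - 1)) := by
  have hF : ∀ s, FF κ A w1 u s = ∑' t, ff κ A u (t + s) := fun s => tsum_w1 _
  have hfin' : ∑' t, ff κ A u t ≠ ∞ := by
    rw [hF] at hfin
    simpa using hfin
  have hstep : ∀ s, FF κ A w1 u s = FF κ A w1 u (s + 1) + ff κ A u s := by
    intro s
    rw [hF, hF, tsum_shift, zero_add, add_comm]
    congr 1
    refine tsum_congr fun t => ?_
    congr 1
    ring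
  have hlim : Tendsto (FF κ A w1 u) atTop (𝓝 0) := by
    have := ENNReal.tendsto_sum_nat_add (ff κ A u) hfin'
    refine this.congr fun s => (hF s).symm
  have hle : ∀ s, FF κ A w1 u s ≤ FF κ A w1 u 0 := by
    intro s
    induction s with
    | zero => exact le_rfl
    | succ s ih => exact le_trans (by rw [hstep s]; exact le_self_add) ih
  have h := tel hr (FF κ A w1 u) (fun s => ENNReal.ofReal r * (ff κ A u s * FF κ A w1 u s ^ (r - 1)))
    (fun s => step_one hr (hstep s) (ne_top_of_le_ne_top hfin (hle s))) hlim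
  rw [tsum_w1, ← ENNReal.tsum_mul_left]
  exact h

theorem tel_wh [IsMarkovKernel κ] {r : ℝ} (hr : 2 ≤ r) {j : ℕ} (u : Fin j → V)
    (hfin : FF κ A wh u 0 ≠ ∞) :
    FF κ A wh u 0 ^ r ≤ ENNReal.ofReal r *
      ∑' s, wh s * (ff κ A u s * FF κ A wh u s ^ (r - 1)) := by
  have hF : ∀ s, FF κ A wh u s = 2⁻¹ * ff κ A u s + ∑' t, ff κ A u (t + 1 + s) := by
    intro s
    have := tsum_wh (fun t => ff κ A u (t + s))
    simp only [zero_add] at this
    exact this
  have hle1 : ∀ s, ff κ A u s ≤ 1 := by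
    intro s
    exact Finset.prod_le_one' fun i _ => S_le_one _ _
  have hstep : ∀ s, FF κ A wh u s = FF κ A wh u (s + 1) + (ff κ A u s + ff κ A u (s + 1)) / 2 := by
    intro s
    rw [hF, hF, tsum_shift (fun t => ff κ A u (t + 1 + s)), div_eq_mul_inv]
    have h1 : ∑' t, ff κ A u (t + 1 + 1 + s) = ∑' t, ff κ A u (t + 1 + (s + 1)) := by
      refine tsum_congr fun t => ?_
      congr 1
      ring
    have h2 : ff κ A u (0 + 1 + s) = ff κ A u (s + 1) := by
      congr 1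
      ring
    rw [h1, h2]
    have h3 : ff κ A u (s + 1) = 2⁻¹ * ff κ A u (s + 1) + 2⁻¹ * ff κ A u (s + 1) := by
      rw [← add_mul, ENNReal.inv_two_add_inv_two, one_mul]
    calc 2⁻¹ * ff κ A u s + (ff κ A u (s + 1) + ∑' t, ff κ A u (t + 1 + (s + 1)))
        = 2⁻¹ * ff κ A u s + (2⁻¹ * ff κ A u (s + 1) + 2⁻¹ * ff κ A u (s + 1)
          + ∑' t, ff κ A u (t + 1 + (s + 1))) := by rw [← h3]
      _ = _ := by ring
  have hle : ∀ s, FF κ A wh u s ≤ FF κ A wh u 0 := by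
    intro s
    induction s with
    | zero => exact le_rfl
    | succ s ih => exact le_trans (by rw [hstep s]; exact le_self_add) ih
  have hfin' : ∑' t, ff κ A u t ≠ ∞ := by
    rw [← tsum_wh_add]
    have h1 : FF κ A wh u 0 = ∑' s, wh s * ff κ A u s := by simp [FF]
    rw [h1] at hfin
    exact ENNReal.add_ne_top.2 ⟨hfin, ENNReal.mul_ne_top (by norm_num)
      (ne_top_of_le_ne_top ENNReal.one_ne_top (hle1 0))⟩
  have hlim : Tendsto (FF κ A wh u) atTop (𝓝 0) := by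
    have h1 := ENNReal.tendsto_sum_nat_add (ff κ A u) hfin'
    refine tendsto_of_tendsto_of_tendsto_of_le_of_le tendsto_const_nhds h1 (fun _ => zero_le)
      fun s => ?_
    unfold FF
    refine ENNReal.tsum_le_tsum fun t => ?_
    have h2 : wh t ≤ 1 := by
      unfold wh
      split_ifs
      · exact ENNReal.inv_le_one.2 (by norm_num)
      · exact le_rfl
    calc wh t * ff κ A u (t + s) ≤ 1 * ff κ A u (t + s) := by gcongr
      _ = _ := one_mul _
  have h := tel (by linarith : (1 : ℝ) ≤ r) (FF κ A wh u)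
    (fun s => ENNReal.ofReal r * ((ff κ A u s * FF κ A wh u s ^ (r - 1)
      + ff κ A u (s + 1) * FF κ A wh u (s + 1) ^ (r - 1)) / 2))
    (fun s => step_half hr (hstep s) (ne_top_of_le_ne_top hfin (hle s)) (ff_anti u (by omega))) hlim
  refine h.trans (le_of_eq ?_)
  rw [ENNReal.tsum_mul_left]
  congr 1
  set g : ℕ → ℝ≥0∞ := fun s => ff κ A u s * FF κ A wh u s ^ (r - 1) with hg
  have h4 : ∑' s, (g s + g (s + 1)) / 2 = ∑' s, wh s * g s := by
    simp_rw [div_eq_mul_inv]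
    rw [ENNReal.tsum_mul_right, ENNReal.tsum_add, tsum_wh, tsum_shift g]
    have h5 : ∑' s, g (s + 1) = 2⁻¹ * ∑' s, g (s + 1) + 2⁻¹ * ∑' s, g (s + 1) := by
      rw [← add_mul, ENNReal.inv_two_add_inv_two, one_mul]
    calc (g 0 + ∑' s, g (s + 1) + ∑' s, g (s + 1)) * 2⁻¹
        = 2⁻¹ * g 0 + (2⁻¹ * ∑' s, g (s + 1) + 2⁻¹ * ∑' s, g (s + 1)) := by ring
      _ = _ := by rw [← h5]
  exact h4

/-- `k h^k` is nondecreasing in `k` -/
theorem basic [IsMarkovKernel κ] (hA : MeasurableSet A) {j k : ℕ} (hj : 1 ≤ j) (hjk : j ≤ k)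
    (u : Fin j → V) :
    (j : ℝ≥0∞) * ∑' s, ff κ A u s ≤ k * HH κ A w1 k := by
  have hjr : (0 : ℝ) < j := by exact_mod_cast hj
  have hr : (1 : ℝ) ≤ (k : ℝ) / j := by
    rw [le_div_iff₀ hjr, one_mul]
    exact_mod_cast hjk
  have h := main_ineq (κ := κ) hA w1 (fun _ _ => rfl) le_rfl hj hjk u (fun hf => tel_w1 hr u hf)
  rwa [tsum_w1] at h

theorem half_le_HH {x : V} (hx : x ∉ A) (k : ℕ) : 1 ≤ HH κ A w1 k := by
  calc (1 : ℝ≥0∞) = w1 0 * S κ A 0 x ^ k := by simp [w1, S_zero hx]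
    _ ≤ ∑' s, w1 s * S κ A s x ^ k := ENNReal.le_tsum 0
    _ ≤ HH κ A w1 k := le_iSup₂ (f := fun (x : V) (_ : x ∉ A) => ∑' s, w1 s * S κ A s x ^ k) x hx

/-- the sharp form -/
theorem sharp [IsMarkovKernel κ] (hA : MeasurableSet A) {x0 : V} (hx0 : x0 ∉ A) {j k : ℕ}
    (hj : 1 ≤ j) (hjk : 2 * j ≤ k) (u : Fin j → V) :
    (j : ℝ≥0∞) * ∑' s, ff κ A u s + ((k - j : ℕ) : ℝ≥0∞) / 2 ≤ k * HH κ A w1 k := by
  have hjr : (0 : ℝ) < j := by exact_mod_cast hj
  have hr : (2 : ℝ) ≤ (k : ℝ) / j := by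
    rw [le_div_iff₀ hjr]
    exact_mod_cast hjk
  by_cases hu : ∀ i, u i ∉ A
  · have h := main_ineq (κ := κ) hA wh (fun s hs => if_neg (by omega))
      (by simp [wh, ENNReal.inv_le_one]) hj (by omega : j ≤ k) u (fun hf => tel_wh hr u hf)
    have h0 : ff κ A u 0 = 1 := by
      unfold ff
      exact Finset.prod_eq_one fun i _ => S_zero (hu i)
    have h1 : ∑' s, ff κ A u s = ∑' s, wh s * ff κ A u s + 2⁻¹ := by
      rw [← tsum_wh_add, h0, mul_one]
    have h2 : HH κ A wh k + 2⁻¹ ≤ HH κ A w1 k := by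
      refine add_le_of_le_tsub_right_of_le ?_ ?_
      · exact le_trans (ENNReal.inv_le_one.2 (by norm_num)) (half_le_HH hx0 k)
      · refine iSup₂_le fun x hx => ?_
        refine ENNReal.le_sub_of_add_le_right (by norm_num) ?_
        have h3 := tsum_wh_add (fun s => S κ A s x ^ k)
        simp only [S_zero hx, one_pow, mul_one] at h3
        rw [h3, ← tsum_w1]
        exact le_iSup₂ (f := fun (x : V) (_ : x ∉ A) => ∑' s, w1 s * S κ A s x ^ k) x hx
    have h5 : (k : ℝ≥0∞) * 2⁻¹ = j * 2⁻¹ + ((k - j : ℕ) : ℝ≥0∞) * 2⁻¹ := by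
      rw [← add_mul, ← Nat.cast_add]
      congr 3
      omega
    calc (j : ℝ≥0∞) * ∑' s, ff κ A u s + ((k - j : ℕ) : ℝ≥0∞) / 2
        = j * ∑' s, wh s * ff κ A u s + k * 2⁻¹ := by
          rw [h1, div_eq_mul_inv, mul_add, add_assoc, ← h5]
      _ ≤ k * HH κ A wh k + k * 2⁻¹ := by gcongr
      _ = k * (HH κ A wh k + 2⁻¹) := by rw [mul_add]
      _ ≤ k * HH κ A w1 k := by gcongr
  · push Not at hu
    obtain ⟨i, hi⟩ := hu
    have h0 : ∀ s, ff κ A u s = 0 := fun s =>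
      Finset.prod_eq_zero (Finset.mem_univ i) (S_eq_zero hi s)
    simp only [h0, tsum_zero, mul_zero, zero_add]
    calc ((k - j : ℕ) : ℝ≥0∞) / 2 ≤ (k : ℝ≥0∞) / 1 := by
          gcongr
          · exact_mod_cast Nat.sub_le k j
          · norm_num
      _ = k * 1 := by simp
      _ ≤ k * HH κ A w1 k := by
          gcongr
          exact half_le_HH hx0 k

end Pool.Agent.Y982.HS
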