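import Pool.Agent.Y982.HS.Path
import Pool.Agent.Results.MP_990fd9_pr.HitSpeedup

/-!
# Speedup of parallel random walks: the case of digraphs, and complete graphs
-/

open MeasureTheory ProbabilityTheory Filter Topology
open scoped ENNReal

noncomputable section

namespace Pool.Agent.Y982.HS

open Pool.Agent.Results.MP_990fd9_pr

/-- transition kernel of simple random walk on a digraph -/
def gk {V : Type*} [Fintype V] [MeasurableSpace V] [DiscreteMeasurableSpace V] (G : Digraph V) :
    Kernel V V := Kernel.ofFunOfCountable (fun x => (HitSpeedup.stepLaw G x).toMeasure)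

instance {V : Type*} [Fintype V] [MeasurableSpace V] [DiscreteMeasurableSpace V] (G : Digraph V) :
    IsMarkovKernel (gk G) := by
  constructor
  intro a
  change IsProbabilityMeasure (HitSpeedup.stepLaw G _).toMeasure
  infer_instance

variable {V : Type*} [Fintype V] [MeasurableSpace V] [DiscreteMeasurableSpace V]

theorem walkLaw_eq (G : Digraph V) (u : V) : HitSpeedup.walkLaw G u = chain (gk G) u := rfl

theorem jointHit_graph (G : Digraph V) {k : ℕ} (u : Fin k → V) (v : V) :
    HitSpeedup.jointHit G u v = jointHit (gk G) {v} u := by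
  unfold HitSpeedup.jointHit jointHit HitSpeedup.hitTime hitTime
  simp only [Set.mem_singleton_iff]
  rfl

theorem hit_eq_joint (G : Digraph V) (u v : V) :
    HitSpeedup.hit G u v = HitSpeedup.jointHit G (fun _ : Fin 1 => u) v := by
  rw [HitSpeedup.hit_eq, HitSpeedup.jointHit_eq]
  simp

theorem hitMax_eq (G : Digraph V) : HitSpeedup.hitMax G = HitSpeedup.jointHitMax G 1 := by
  refine le_antisymm ?_ ?_
  · refine iSup₂_le fun u v => ?_
    rw [hit_eq_joint]
    exact le_iSup₂ (f := fun (u : Fin 1 → V) (v : V) => HitSpeedup.jointHit G u v) (fun _ => u) v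
  · refine iSup₂_le fun u v => ?_
    have : u = fun _ => u 0 := by
      ext i
      rw [Subsingleton.elim i 0]
    rw [this, ← hit_eq_joint]
    exact le_iSup₂ (f := fun (u : V) (v : V) => HitSpeedup.hit G u v) (u 0) v

theorem common_le (G : Digraph V) (k : ℕ) (v : V) :
    commonHitMax (gk G) {v} k ≤ HitSpeedup.jointHitMax G k := by
  refine iSup_le fun x => ?_
  rw [← jointHit_graph]
  exact le_iSup₂ (f := fun (u : Fin k → V) (v : V) => HitSpeedup.jointHit G u v) (fun _ => x) v

theorem graph_mono (G : Digraph V) {j k : ℕ} (hj : 1 ≤ j) (hjk : j ≤ k) :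
    (j : ℝ≥0∞) * HitSpeedup.jointHitMax G j ≤ k * HitSpeedup.jointHitMax G k := by
  unfold HitSpeedup.jointHitMax
  rw [ENNReal.mul_iSup]
  refine iSup_le fun u => ?_
  rw [ENNReal.mul_iSup]
  refine iSup_le fun v => ?_
  rw [jointHit_graph]
  calc (j : ℝ≥0∞) * jointHit (gk G) {v} u ≤ j * jointHitMax (gk G) {v} j := by
        gcongr
        exact le_iSup (fun u : Fin j → V => jointHit (gk G) {v} u) u
    _ ≤ k * commonHitMax (gk G) {v} k := monotone_hit (gk G) (MeasurableSet.singleton v) hj hjk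
    _ ≤ k * HitSpeedup.jointHitMax G k := by
        gcongr
        exact common_le G k v

theorem graph_sharp [Nontrivial V] (G : Digraph V) {j k : ℕ} (hj : 1 ≤ j) (hjk : 2 * j ≤ k) :
    (j : ℝ≥0∞) * HitSpeedup.jointHitMax G j + ((k - j : ℕ) : ℝ≥0∞) / 2
      ≤ k * HitSpeedup.jointHitMax G k := by
  have hne : Nonempty (Fin j → V) := inferInstance
  unfold HitSpeedup.jointHitMax
  rw [ENNReal.mul_iSup, ENNReal.iSup_add]
  refine iSup_le fun u => ?_
  rw [ENNReal.mul_iSup, ENNReal.iSup_add]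
  refine iSup_le fun v => ?_
  rw [jointHit_graph]
  have hv : ({v} : Set V) ≠ Set.univ := by
    obtain ⟨w, hw⟩ := exists_ne v
    exact (Set.ne_univ_iff_exists_notMem _).2 ⟨w, by simpa using hw⟩
  calc (j : ℝ≥0∞) * jointHit (gk G) {v} u + ((k - j : ℕ) : ℝ≥0∞) / 2
      ≤ j * jointHitMax (gk G) {v} j + ((k - j : ℕ) : ℝ≥0∞) / 2 := by
        gcongr
        exact le_iSup (fun u : Fin j → V => jointHit (gk G) {v} u) u
    _ ≤ k * commonHitMax (gk G) {v} k := sharp_hit (gk G) (MeasurableSet.singleton v) hv hj hjk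
    _ ≤ k * HitSpeedup.jointHitMax G k := by
        gcongr
        exact common_le G k v

/-- the complete graph on `n` vertices (without loops), as a digraph -/
def complete (n : ℕ) : Digraph (Fin n) := ⟨fun x y => x ≠ y⟩

theorem complete_connected (n : ℕ) : HitSpeedup.StronglyConnected (complete n) := by
  intro x y
  by_cases h : x = y
  · rw [h]
  · exact Relation.ReflTransGen.single h

theorem step_complete {N : ℕ} (hN : 1 ≤ N) (x y : Fin (N + 1)) :
    HitSpeedup.stepLaw (complete (N + 1)) x y = if x ≠ y then (N : ℝ≥0∞)⁻¹ else 0 := by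
  classical
  have hne : (Finset.univ.filter (fun y => (complete (N + 1)).Adj x y)).Nonempty := by
    have : Nontrivial (Fin (N + 1)) := Fin.nontrivial_iff_two_le.2 (by omega)
    obtain ⟨w, hw⟩ := exists_ne x
    exact ⟨w, by simp [complete, Ne.symm hw]⟩
  have h1 : HitSpeedup.stepLaw (complete (N + 1)) x
      = PMF.uniformOfFinset (Finset.univ.filter (fun y => (complete (N + 1)).Adj x y)) hne := by
    unfold HitSpeedup.stepLaw
    have hne' := hne
    rw [dif_pos (by convert hne')]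
  rw [h1, PMF.uniformOfFinset_apply]
  have hcard : (Finset.univ.filter (fun y => (complete (N + 1)).Adj x y)).card = N := by
    have : Finset.univ.filter (fun y => (complete (N + 1)).Adj x y) = Finset.univ.erase x := by
      ext y
      simp [complete, eq_comm]
    rw [this, Finset.card_erase_of_mem (Finset.mem_univ x)]
    simp
  rw [hcard]
  simp [complete]

theorem S_complete {N : ℕ} (hN : 1 ≤ N) (v : Fin (N + 1)) (t : ℕ) (x : Fin (N + 1)) :
    HitSpeedup.S (fun x y => HitSpeedup.stepLaw (complete (N + 1)) x y) v t x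
      = if x = v then 0 else (((N - 1 : ℕ) : ℝ≥0∞) * (N : ℝ≥0∞)⁻¹) ^ t := by
  induction t generalizing x with
  | zero => simp [HitSpeedup.S]
  | succ t ih =>
    rw [HitSpeedup.S]
    by_cases hx : x = v
    · simp [hx]
    · rw [if_neg hx, if_neg hx]
      simp_rw [ih, step_complete hN]
      set Q : ℝ≥0∞ := (((N - 1 : ℕ) : ℝ≥0∞) * (N : ℝ≥0∞)⁻¹) with hQ
      have h1 : ∀ y : Fin (N + 1), (if x ≠ y then (N : ℝ≥0∞)⁻¹ else 0) * (if y = v then 0 else Q ^ t)
          = if y ∈ (Finset.univ.erase x).erase v then (N : ℝ≥0∞)⁻¹ * Q ^ t else 0 := by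
        intro y
        by_cases hy1 : y = v
        · simp [hy1]
        · by_cases hy2 : x = y
          · simp [hy2]
          · have hy3 : ¬ y = x := fun h => hy2 h.symm
            simp [hy1, hy2, hy3]
      rw [Finset.sum_congr rfl fun y _ => h1 y, ← Finset.sum_filter, Finset.sum_const,
        nsmul_eq_mul]
      have h2 : (Finset.univ.filter (fun y => y ∈ (Finset.univ.erase x).erase v)).card = N - 1 := by
        rw [Finset.filter_univ_mem, Finset.card_erase_of_mem, Finset.card_erase_of_mem]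
        · simp
        · exact Finset.mem_univ x
        · simp [Ne.symm hx]
      rw [h2, hQ, pow_succ]
      ring

theorem pow_one_sub_le {d : ℝ} (h0 : 0 ≤ d) (h1 : d ≤ 1) (k : ℕ) :
    (1 - d) ^ k ≤ 1 - k * d + k * (k - 1) / 2 * d ^ 2 := by
  induction k with
  | zero => simp
  | succ k ih =>
    have h2 : (1 - d) ^ (k + 1) ≤ (1 - d) * (1 - k * d + k * (k - 1) / 2 * d ^ 2) := by
      rw [pow_succ, mul_comm]
      exact mul_le_mul_of_nonneg_left ih (by linarith)
    refine h2.trans ?_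
    have h3 : 0 ≤ (k : ℝ) * (k - 1) / 2 * d ^ 3 := by
      rcases Nat.eq_zero_or_pos k with hk | hk
      · simp [hk]
      · have : (1 : ℝ) ≤ k := by exact_mod_cast hk
        have : 0 ≤ (k : ℝ) - 1 := by linarith
        positivity
    push_cast
    nlinarith

/-- real computation for complete graphs -/
theorem real_bound {k : ℕ} (hk : 1 ≤ k) {ε : ℝ} (hε : 0 < ε) :
    ∃ N : ℕ, 1 ≤ N ∧ (1 - 1 / (N : ℝ)) ^ k < 1 ∧
      k / (1 - (1 - 1 / (N : ℝ)) ^ k) ≤ N + ((k : ℝ) - 1) / 2 + ε := by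
  set a : ℝ := ((k : ℝ) - 1) / 2 with ha
  have hk1 : (1 : ℝ) ≤ k := by exact_mod_cast hk
  have ha0 : 0 ≤ a := by rw [ha]; linarith
  obtain ⟨N, hN⟩ := exists_nat_gt (a + a ^ 2 / ε + 1)
  have h1 : 0 ≤ a ^ 2 / ε := by positivity
  have hN1 : (1 : ℝ) < N := by linarith
  have hN0 : (0 : ℝ) < N := by linarith
  have hNa : 0 < (N : ℝ) - a := by linarith
  have hd0 : 0 ≤ 1 / (N : ℝ) := by positivity
  have hd1 : 1 / (N : ℝ) ≤ 1 := by
    rw [div_le_one hN0]
    exact hN1.le
  have hp := pow_one_sub_le hd0 hd1 k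
  have h2 : 1 - (k : ℝ) * (1 / N) + k * (k - 1) / 2 * (1 / N) ^ 2
      = 1 - k * (N - a) / N ^ 2 := by
    rw [ha]
    field_simp
    ring
  rw [h2] at hp
  have hpos : 0 < k * ((N : ℝ) - a) / N ^ 2 := by positivity
  have h3 : k * ((N : ℝ) - a) / N ^ 2 ≤ 1 - (1 - 1 / (N : ℝ)) ^ k := by linarith
  refine ⟨N, by exact_mod_cast hN1.le, by linarith, ?_⟩
  calc k / (1 - (1 - 1 / (N : ℝ)) ^ k) ≤ k / (k * ((N : ℝ) - a) / N ^ 2) :=
        div_le_div_of_nonneg_left (by linarith) hpos h3
    _ = N + a + a ^ 2 / (N - a) := by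
        have : (k : ℝ) ≠ 0 := by linarith
        field_simp
        ring
    _ ≤ N + a + ε := by
        have h4 : a ^ 2 / (N - a) ≤ ε := by
          rw [div_le_iff₀ hNa]
          have h5 : a ^ 2 / ε ≤ N - a := by linarith
          rw [div_le_iff₀ hε] at h5
          linarith
        linarith

/-- the additive term is optimal: complete graphs -/
theorem complete_sharp {k : ℕ} (hk : 1 ≤ k) {ε : ℝ} (hε : 0 < ε) :
    ∃ n : ℕ, 2 ≤ n ∧ (k : ℝ≥0∞) * HitSpeedup.jointHitMax (complete n) k
      ≤ HitSpeedup.hitMax (complete n) + ((k - 1 : ℕ) : ℝ≥0∞) / 2 + ENNReal.ofReal ε := by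
  classical
  obtain ⟨N, hN, hlt, hb⟩ := real_bound hk hε
  have hN0 : (N : ℝ≥0∞) ≠ 0 := by exact_mod_cast (by omega : N ≠ 0)
  have hNt : (N : ℝ≥0∞) ≠ ∞ := ENNReal.natCast_ne_top N
  have hNr : (0 : ℝ) < N := by exact_mod_cast (by omega : 0 < N)
  set Q : ℝ≥0∞ := (((N - 1 : ℕ) : ℝ≥0∞) * (N : ℝ≥0∞)⁻¹) with hQ
  have hq0 : 0 ≤ 1 - 1 / (N : ℝ) := by
    have : 1 / (N : ℝ) ≤ 1 := by
      rw [div_le_one hNr]
      exact_mod_cast hN
    linarith
  have hQr : Q = ENNReal.ofReal (1 - 1 / (N : ℝ)) := by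
    rw [hQ]
    have h1 : (1 : ℝ) - 1 / N = ((N - 1 : ℕ) : ℝ) * (N : ℝ)⁻¹ := by
      rw [Nat.cast_sub hN]
      field_simp
      simp
    rw [h1, ENNReal.ofReal_mul (by positivity), ENNReal.ofReal_natCast, ENNReal.ofReal_inv_of_pos hNr,
      ENNReal.ofReal_natCast]
  -- upper bound for the joint hitting times
  have hup : HitSpeedup.jointHitMax (complete (N + 1)) k ≤ (1 - Q ^ k)⁻¹ := by
    refine iSup₂_le fun u v => ?_
    rw [HitSpeedup.jointHit_eq]
    simp_rw [HitSpeedup.walkLaw_avoid, S_complete hN]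
    calc ∑' t, ∏ i, (if u i = v then (0 : ℝ≥0∞) else Q ^ t) ≤ ∑' t, (Q ^ k) ^ t := by
          refine ENNReal.tsum_le_tsum fun t => ?_
          calc ∏ i, (if u i = v then (0 : ℝ≥0∞) else Q ^ t) ≤ ∏ _i : Fin k, Q ^ t := by
                refine Finset.prod_le_prod' fun i _ => ?_
                split_ifs
                · exact zero_le
                · exact le_rfl
            _ = (Q ^ k) ^ t := by
                rw [Finset.prod_const, Finset.card_univ, Fintype.card_fin, ← pow_mul, ← pow_mul,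
                  mul_comm]
      _ = (1 - Q ^ k)⁻¹ := ENNReal.tsum_geometric _
  -- lower bound for the hitting time
  have hlow : (N : ℝ≥0∞) ≤ HitSpeedup.hitMax (complete (N + 1)) := by
    have : Nontrivial (Fin (N + 1)) := Fin.nontrivial_iff_two_le.2 (by omega)
    obtain ⟨w, hw⟩ := exists_ne (0 : Fin (N + 1))
    calc (N : ℝ≥0∞) = (1 - Q)⁻¹ := by
          have h1 : (1 : ℝ≥0∞) - Q = (N : ℝ≥0∞)⁻¹ := by
            rw [hQr, ← ENNReal.ofReal_one, ← ENNReal.ofReal_sub _ hq0]
            rw [show (1 : ℝ) - (1 - 1 / N) = (N : ℝ)⁻¹ by field_simp; simp,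
              ENNReal.ofReal_inv_of_pos hNr, ENNReal.ofReal_natCast]
          rw [h1, inv_inv]
      _ = ∑' t, Q ^ t := (ENNReal.tsum_geometric _).symm
      _ = HitSpeedup.hit (complete (N + 1)) w 0 := by
          rw [HitSpeedup.hit_eq]
          refine tsum_congr fun t => ?_
          rw [HitSpeedup.walkLaw_avoid, S_complete hN, if_neg hw]
      _ ≤ HitSpeedup.hitMax (complete (N + 1)) :=
          le_iSup₂ (f := fun (u v : Fin (N + 1)) => HitSpeedup.hit (complete (N + 1)) u v) w 0
  refine ⟨N + 1, by omega, ?_⟩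
  have hpos : 0 < 1 - (1 - 1 / (N : ℝ)) ^ k := by linarith
  calc (k : ℝ≥0∞) * HitSpeedup.jointHitMax (complete (N + 1)) k ≤ k * (1 - Q ^ k)⁻¹ := by gcongr
    _ = ENNReal.ofReal (k / (1 - (1 - 1 / (N : ℝ)) ^ k)) := by
        rw [hQr, ← ENNReal.ofReal_pow hq0, ← ENNReal.ofReal_one,
          ← ENNReal.ofReal_sub _ (pow_nonneg (by simpa using hq0) k),
          ← ENNReal.ofReal_inv_of_pos (by simpa using hpos), div_eq_mul_inv (k : ℝ),
          ENNReal.ofReal_mul (by positivity), ENNReal.ofReal_natCast]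
    _ ≤ ENNReal.ofReal (N + ((k : ℝ) - 1) / 2 + ε) := ENNReal.ofReal_le_ofReal hb
    _ = N + ((k - 1 : ℕ) : ℝ≥0∞) / 2 + ENNReal.ofReal ε := by
        have hk1 : (1 : ℝ) ≤ k := by exact_mod_cast hk
        rw [ENNReal.ofReal_add (by linarith) hε.le, ENNReal.ofReal_add (by linarith) (by linarith),
          ENNReal.ofReal_natCast]
        congr 2
        rw [show ((k : ℝ) - 1) / 2 = ((k - 1 : ℕ) : ℝ) / 2 by rw [Nat.cast_sub hk, Nat.cast_one],
          ENNReal.ofReal_div_of_pos (by norm_num), ENNReal.ofReal_natCast]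
        norm_num
    _ ≤ _ := by gcongr

end Pool.Agent.Y982.HS
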