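import Mathlib

/-!
# Inequalities for the speedup of parallel random walks
-/

open MeasureTheory Filter Topology
open scoped ENNReal

noncomputable section

namespace Pool.Agent.Y982.HS

theorem young_real {r : ℝ} (hr : 1 ≤ r) {a b : ℝ} (ha : 0 ≤ a) (hb : 0 ≤ b) :
    r * (a ^ (r - 1) * b) ≤ (r - 1) * a ^ r + b ^ r := by
  rcases ha.eq_or_lt with h0 | hpos
  · subst h0
    rcases hr.eq_or_lt with h1 | h1
    · subst h1
      simp
    · rw [Real.zero_rpow (by linarith), Real.zero_rpow (by linarith)]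
      have : 0 ≤ b ^ r := Real.rpow_nonneg hb r
      simpa using this
  · have h := one_add_mul_self_le_rpow_one_add (s := b / a - 1)
      (by have : 0 ≤ b / a := by positivity
          linarith) hr
    have h1 : (1 + (b / a - 1)) ^ r = b ^ r / a ^ r := by
      rw [← Real.div_rpow hb ha]
      congr 1
      ring
    rw [h1, le_div_iff₀ (Real.rpow_pos_of_pos hpos r)] at h
    have h2 : a ^ (r - 1) = a ^ r / a := Real.rpow_sub_one hpos.ne' r
    rw [h2]
    have h3 : (1 + r * (b / a - 1)) * a ^ r = r * (a ^ r / a * b) - (r - 1) * a ^ r := by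
      field_simp
      ring
    rw [h3] at h
    linarith

theorem young {r : ℝ} (hr : 1 ≤ r) (a b : ℝ≥0∞) :
    ENNReal.ofReal r * (a ^ (r - 1) * b) ≤ ENNReal.ofReal (r - 1) * a ^ r + b ^ r := by
  have hr0 : 0 < r := by linarith
  by_cases hb : b = ∞
  · subst hb
    rw [ENNReal.top_rpow_of_pos hr0, add_top]
    exact le_top
  by_cases ha : a = ∞
  · subst ha
    rcases hr.eq_or_lt with h1 | h1
    · subst h1
      simp
    · rw [ENNReal.top_rpow_of_pos hr0, ENNReal.mul_top, top_add]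
      · exact le_top
      · simp only [ne_eq, ENNReal.ofReal_eq_zero, not_le]
        linarith
  have ha' : a = ENNReal.ofReal a.toReal := (ENNReal.ofReal_toReal ha).symm
  have hb' : b = ENNReal.ofReal b.toReal := (ENNReal.ofReal_toReal hb).symm
  have h := young_real hr (a := a.toReal) (b := b.toReal) ENNReal.toReal_nonneg ENNReal.toReal_nonneg
  have hp1 : (0 : ℝ) ≤ a.toReal ^ (r - 1) := Real.rpow_nonneg ENNReal.toReal_nonneg _
  have hp2 : (0 : ℝ) ≤ a.toReal ^ r := Real.rpow_nonneg ENNReal.toReal_nonneg _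
  have hp3 : (0 : ℝ) ≤ b.toReal ^ r := Real.rpow_nonneg ENNReal.toReal_nonneg _
  rw [ha', hb', ENNReal.ofReal_rpow_of_nonneg ENNReal.toReal_nonneg (by linarith),
    ENNReal.ofReal_rpow_of_nonneg ENNReal.toReal_nonneg hr0.le,
    ENNReal.ofReal_rpow_of_nonneg ENNReal.toReal_nonneg hr0.le,
    ← ENNReal.ofReal_mul hp1, ← ENNReal.ofReal_mul hr0.le, ← ENNReal.ofReal_mul (by linarith),
    ← ENNReal.ofReal_add (mul_nonneg (by linarith) hp2) hp3]
  exact ENNReal.ofReal_le_ofReal h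

theorem ofReal_split {r : ℝ} (hr : 1 ≤ r) (X : ℝ≥0∞) :
    ENNReal.ofReal r * X = ENNReal.ofReal (r - 1) * X + X := by
  have : ENNReal.ofReal r = ENNReal.ofReal (r - 1) + 1 := by
    rw [← ENNReal.ofReal_one, ← ENNReal.ofReal_add (by linarith) zero_le_one]
    congr 1
    ring
  rw [this, add_mul, one_mul]

theorem pow_split {r : ℝ} (hr : 1 ≤ r) (a : ℝ≥0∞) : a ^ (r - 1) * a = a ^ r := by
  have h := ENNReal.rpow_add_of_nonneg (x := a) (r - 1) 1 (by linarith) zero_le_one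
  rw [ENNReal.rpow_one] at h
  rw [← h]
  congr 1
  ring

/-- Jensen's inequality -/
theorem jensen {α : Type*} [MeasurableSpace α] (ν : Measure α) {r : ℝ} (hr : 1 ≤ r)
    {φ : α → ℝ≥0∞} (hφ : Measurable φ) (hM : ν Set.univ ≠ ∞) (hI : ∫⁻ x, φ x ∂ν ≠ ∞) :
    (∫⁻ x, φ x ∂ν) ^ r ≤ ν Set.univ ^ (r - 1) * ∫⁻ x, φ x ^ r ∂ν := by
  have hr0 : 0 < r := by linarith
  by_cases hM0 : ν Set.univ = 0
  · have hν : ν = 0 := Measure.measure_univ_eq_zero.1 hM0
    subst hν
    simp [ENNReal.zero_rpow_of_pos hr0]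
  set M := ν Set.univ with hMdef
  set I := ∫⁻ x, φ x ∂ν with hIdef
  set J := ∫⁻ x, φ x ^ r ∂ν with hJdef
  set c := I / M with hc
  have hcM : c * M = I := ENNReal.div_mul_cancel hM0 hM
  have hcfin : c ≠ ∞ := (ENNReal.div_lt_top hI hM0).ne
  have h1 : ∫⁻ x, ENNReal.ofReal r * (c ^ (r - 1) * φ x) ∂ν
      ≤ ∫⁻ x, (ENNReal.ofReal (r - 1) * c ^ r + φ x ^ r) ∂ν :=
    lintegral_mono fun x => young hr c (φ x)
  rw [lintegral_const_mul _ (hφ.const_mul _), lintegral_const_mul _ hφ,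
    lintegral_add_left measurable_const, lintegral_const, ← hIdef, ← hJdef, ← hMdef, ← hcM,
    ← mul_assoc (c ^ (r - 1)), pow_split hr, ofReal_split hr, mul_assoc] at h1
  have hX : c ^ r * M ≠ ∞ := ENNReal.mul_ne_top (ENNReal.rpow_ne_top_of_nonneg hr0.le hcfin) hM
  have h2 : c ^ r * M ≤ J :=
    (ENNReal.add_le_add_iff_left (ENNReal.mul_ne_top ENNReal.ofReal_ne_top hX)).1 h1
  calc I ^ r = (c * M) ^ r := by rw [hcM]
    _ = c ^ r * M ^ r := ENNReal.mul_rpow_of_nonneg _ _ hr0.le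
    _ = M ^ (r - 1) * (c ^ r * M) := by rw [← pow_split hr M]; ring
    _ ≤ M ^ (r - 1) * J := by gcongr

/-- telescoping -/
theorem tel {r : ℝ} (hr : 1 ≤ r) (F E : ℕ → ℝ≥0∞) (hstep : ∀ s, F s ^ r ≤ F (s + 1) ^ r + E s)
    (hlim : Tendsto F atTop (𝓝 0)) : F 0 ^ r ≤ ∑' s, E s := by
  have h1 : ∀ n, F 0 ^ r ≤ F n ^ r + ∑' s, E s := by
    have h2 : ∀ n, F 0 ^ r ≤ F n ^ r + ∑ s ∈ Finset.range n, E s := by
      intro n
      induction n with
      | zero => simp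
      | succ n ih =>
        refine ih.trans ?_
        rw [Finset.sum_range_succ, add_comm (∑ s ∈ Finset.range n, E s), ← add_assoc]
        gcongr
        exact hstep n
    intro n
    exact (h2 n).trans (by gcongr; exact ENNReal.sum_le_tsum _)
  have h3 : Tendsto (fun n => F n ^ r + ∑' s, E s) atTop (𝓝 (0 + ∑' s, E s)) := by
    refine Tendsto.add ?_ tendsto_const_nhds
    have := (ENNReal.continuous_rpow_const (y := r)).tendsto 0
    rw [ENNReal.zero_rpow_of_pos (by linarith)] at this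
    exact this.comp hlim
  rw [zero_add] at h3
  exact ge_of_tendsto' h3 h1

theorem step_one {r : ℝ} (hr : 1 ≤ r) {a b f : ℝ≥0∞} (h : a = b + f) (ha : a ≠ ∞) :
    a ^ r ≤ b ^ r + ENNReal.ofReal r * (f * a ^ (r - 1)) := by
  have h1 := young hr a b
  have h2 : ENNReal.ofReal r * a ^ r
      = ENNReal.ofReal r * (a ^ (r - 1) * b) + ENNReal.ofReal r * (f * a ^ (r - 1)) := by
    rw [← pow_split hr a, ← mul_add, mul_comm f, ← mul_add, ← h]
  have h3 : ENNReal.ofReal (r - 1) * a ^ r + a ^ r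
      ≤ ENNReal.ofReal (r - 1) * a ^ r + (b ^ r + ENNReal.ofReal r * (f * a ^ (r - 1))) := by
    rw [← ofReal_split hr, h2, ← add_assoc]
    gcongr
  exact (ENNReal.add_le_add_iff_left (ENNReal.mul_ne_top ENNReal.ofReal_ne_top
    (ENNReal.rpow_ne_top_of_nonneg (by linarith) ha))).1 h3

/-- trapezoidal rule for the convex function `x ^ (r-1)` -/
theorem trap_real {r : ℝ} (hr : 2 ≤ r) {a b : ℝ} (ha : 0 ≤ a) (hab : a ≤ b) :
    b ^ r ≤ a ^ r + (b - a) * ((a ^ (r - 1) + b ^ (r - 1)) * (r / 2)) := by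
  let g : ℝ → ℝ := fun x => (x - a) * ((a ^ (r - 1) + x ^ (r - 1)) * (r / 2)) - x ^ r
  have hd : ∀ x : ℝ, HasDerivAt g ((a ^ (r - 1) + x ^ (r - 1)) * (r / 2)
      + (x - a) * (((r - 1) * x ^ (r - 1 - 1)) * (r / 2)) - r * x ^ (r - 1)) x := by
    intro x
    have h1 : HasDerivAt (fun x : ℝ => x ^ (r - 1)) ((r - 1) * x ^ (r - 1 - 1)) x :=
      Real.hasDerivAt_rpow_const (Or.inr (by linarith))
    have h2 : HasDerivAt (fun x : ℝ => x ^ r) (r * x ^ (r - 1)) x :=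
      Real.hasDerivAt_rpow_const (Or.inr (by linarith))
    have h3 : HasDerivAt (fun x : ℝ => x - a) 1 x := (hasDerivAt_id x).sub_const a
    have h4 := (h3.fun_mul ((h1.const_add (a ^ (r - 1))).mul_const (r / 2))).fun_sub h2
    exact h4.congr_deriv (by ring)
  have hmono : MonotoneOn g (Set.Ici a) := by
    refine monotoneOn_of_deriv_nonneg (convex_Ici a)
      (fun x _ => (hd x).continuousAt.continuousWithinAt)
      (fun x _ => (hd x).differentiableAt.differentiableWithinAt) fun x hx => ?_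
    rw [interior_Ici] at hx
    rw [(hd x).deriv]
    have hx' : a < x := hx
    have hx0 : 0 < x := lt_of_le_of_lt ha hx'
    have hy := young_real (r := r - 1) (by linarith) hx0.le ha
    have h5 : x ^ (r - 1 - 1) * x = x ^ (r - 1) := by
      rw [Real.rpow_sub_one hx0.ne']
      field_simp
    have h6 : (a ^ (r - 1) + x ^ (r - 1)) * (r / 2)
      + (x - a) * (((r - 1) * x ^ (r - 1 - 1)) * (r / 2)) - r * x ^ (r - 1)
      = (r / 2) * (a ^ (r - 1) - x ^ (r - 1) + (r - 1) * (x ^ (r - 1 - 1) * x)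
        - (r - 1) * (x ^ (r - 1 - 1) * a)) := by ring
    rw [h6, h5]
    refine mul_nonneg (by linarith) ?_
    nlinarith
  have h7 := hmono (Set.mem_Ici.2 le_rfl) (Set.mem_Ici.2 hab) hab
  simp only [g, sub_self, zero_mul, zero_sub] at h7
  linarith

theorem half_real {r : ℝ} (hr : 2 ≤ r) {a f f' : ℝ} (ha : 0 ≤ a) (hf' : 0 ≤ f') (hff : f' ≤ f) :
    (a + (f + f') / 2) ^ r
      ≤ a ^ r + r * ((f * (a + (f + f') / 2) ^ (r - 1) + f' * a ^ (r - 1)) / 2) := by
  set b := a + (f + f') / 2 with hb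
  have hab : a ≤ b := by rw [hb]; linarith
  have h1 := trap_real hr ha hab
  have h2 : b - a = (f + f') / 2 := by rw [hb]; ring
  rw [h2] at h1
  have h3 : a ^ (r - 1) ≤ b ^ (r - 1) := Real.rpow_le_rpow ha hab (by linarith)
  have h4 : 0 ≤ (f - f') * (b ^ (r - 1) - a ^ (r - 1)) :=
    mul_nonneg (by linarith) (by linarith)
  have h5 : (f + f') / 2 * ((a ^ (r - 1) + b ^ (r - 1)) * (r / 2))
      = r * ((f * b ^ (r - 1) + f' * a ^ (r - 1)) / 2)
        - r / 4 * ((f - f') * (b ^ (r - 1) - a ^ (r - 1))) := by ring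
  rw [h5] at h1
  have h6 : 0 ≤ r / 4 * ((f - f') * (b ^ (r - 1) - a ^ (r - 1))) :=
    mul_nonneg (by linarith) h4
  linarith

theorem step_half {r : ℝ} (hr : 2 ≤ r) {a b f f' : ℝ≥0∞} (h : b = a + (f + f') / 2)
    (hb : b ≠ ∞) (hff : f' ≤ f) :
    b ^ r ≤ a ^ r + ENNReal.ofReal r * ((f * b ^ (r - 1) + f' * a ^ (r - 1)) / 2) := by
  have hr0 : 0 < r := by linarith
  have hab : a ≤ b := by rw [h]; exact le_self_add
  have ha : a ≠ ∞ := ne_top_of_le_ne_top hb hab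
  have hf : f ≠ ∞ := by
    intro hf
    rw [hf, top_add, ENNReal.top_div_of_ne_top (by norm_num), add_top] at h
    exact hb h
  have hf' : f' ≠ ∞ := ne_top_of_le_ne_top hf hff
  have hr1 : 0 ≤ r - 1 := by linarith
  have hreal := half_real hr (a := a.toReal) (f := f.toReal) (f' := f'.toReal)
    ENNReal.toReal_nonneg ENNReal.toReal_nonneg ((ENNReal.toReal_le_toReal hf' hf).2 hff)
  have hbr : b.toReal = a.toReal + (f.toReal + f'.toReal) / 2 := by
    rw [h, ENNReal.toReal_add ha (ENNReal.div_lt_top (ENNReal.add_ne_top.2 ⟨hf, hf'⟩)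
      (by norm_num)).ne, ENNReal.toReal_div, ENNReal.toReal_add hf hf']
    norm_num
  rw [← hbr] at hreal
  have hA : a ^ r ≠ ∞ := ENNReal.rpow_ne_top_of_nonneg hr0.le ha
  have hA1 : a ^ (r - 1) ≠ ∞ := ENNReal.rpow_ne_top_of_nonneg hr1 ha
  have hB : b ^ r ≠ ∞ := ENNReal.rpow_ne_top_of_nonneg hr0.le hb
  have hB1 : b ^ (r - 1) ≠ ∞ := ENNReal.rpow_ne_top_of_nonneg hr1 hb
  have hsum : f * b ^ (r - 1) + f' * a ^ (r - 1) ≠ ∞ :=
    ENNReal.add_ne_top.2 ⟨ENNReal.mul_ne_top hf hB1, ENNReal.mul_ne_top hf' hA1⟩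
  have hdiv : (f * b ^ (r - 1) + f' * a ^ (r - 1)) / 2 ≠ ∞ :=
    (ENNReal.div_lt_top hsum (by norm_num)).ne
  have hR : ENNReal.ofReal r * ((f * b ^ (r - 1) + f' * a ^ (r - 1)) / 2) ≠ ∞ :=
    ENNReal.mul_ne_top ENNReal.ofReal_ne_top hdiv
  rw [← ENNReal.toReal_le_toReal hB (ENNReal.add_ne_top.2 ⟨hA, hR⟩), ENNReal.toReal_add hA hR,
    ENNReal.toReal_mul, ENNReal.toReal_ofReal hr0.le, ENNReal.toReal_div,
    ENNReal.toReal_add (ENNReal.mul_ne_top hf hB1) (ENNReal.mul_ne_top hf' hA1),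
    ENNReal.toReal_mul, ENNReal.toReal_mul, ← ENNReal.toReal_rpow, ← ENNReal.toReal_rpow,
    ← ENNReal.toReal_rpow, ← ENNReal.toReal_rpow]
  simpa using hreal

/-- the abstract main inequality -/
theorem core {r : ℝ} (hr : 1 ≤ r) (τ f F : ℕ → ℝ≥0∞) (H M : ℝ≥0∞) (hMfin : M ≠ ∞) (hM0 : M ≠ 0)
    (hJ : ∑' s, τ s * F s ^ r ≤ M ^ r * H) (hown : ∑' s, τ s * f s ^ r ≤ H)
    (htel : M ^ r ≤ ENNReal.ofReal r * ∑' s, τ s * (f s * F s ^ (r - 1))) :
    M ≤ ENNReal.ofReal r * H := by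
  have hr0 : 0 < r := by linarith
  have h1 : M ^ r * M ≤ M ^ r * (ENNReal.ofReal r * H) := by
    calc M ^ r * M ≤ (ENNReal.ofReal r * ∑' s, τ s * (f s * F s ^ (r - 1))) * M := by gcongr
      _ = ∑' s, τ s * (ENNReal.ofReal r * (F s ^ (r - 1) * (M * f s))) := by
          rw [mul_assoc, ← ENNReal.tsum_mul_right, ← ENNReal.tsum_mul_left]
          refine tsum_congr fun s => ?_
          ring
      _ ≤ ∑' s, τ s * (ENNReal.ofReal (r - 1) * F s ^ r + (M * f s) ^ r) := by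
          refine ENNReal.tsum_le_tsum fun s => ?_
          gcongr
          exact young hr _ _
      _ = ENNReal.ofReal (r - 1) * ∑' s, τ s * F s ^ r + M ^ r * ∑' s, τ s * f s ^ r := by
          rw [← ENNReal.tsum_mul_left, ← ENNReal.tsum_mul_left, ← ENNReal.tsum_add]
          refine tsum_congr fun s => ?_
          rw [ENNReal.mul_rpow_of_nonneg _ _ hr0.le]
          ring
      _ ≤ ENNReal.ofReal (r - 1) * (M ^ r * H) + M ^ r * H := by gcongr
      _ = M ^ r * (ENNReal.ofReal r * H) := by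
          rw [← ofReal_split hr]
          ring
  exact (ENNReal.mul_le_mul_iff_right (by
    simp only [ne_eq, ENNReal.rpow_eq_zero_iff, not_or, not_and]
    exact ⟨fun h => absurd h hM0, fun h => absurd h hMfin⟩)
    (ENNReal.rpow_ne_top_of_nonneg hr0.le hMfin)).1 h1

/-- inequality of arithmetic and geometric means -/
theorem amgm {j k : ℕ} (hj : 1 ≤ j) (c : Fin j → ℝ≥0∞) (hc : ∀ i, c i ≠ ∞) :
    (j : ℝ≥0∞) * (∏ i, c i) ^ ((k : ℝ) / j) ≤ ∑ i, c i ^ k := by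
  lift c to Fin j → NNReal using hc
  have hj0 : (j : ℝ) ≠ 0 := by
    have : (1 : ℝ) ≤ j := by exact_mod_cast hj
    linarith
  have hj1 : (j : NNReal) ≠ 0 := by exact_mod_cast (by omega : j ≠ 0)
  have h := NNReal.geom_mean_le_arith_mean_weighted (s := Finset.univ)
    (w := fun _ : Fin j => ((j : NNReal))⁻¹) (z := fun i => c i ^ k) (by
      simp [Finset.sum_const, Finset.card_univ, nsmul_eq_mul, mul_inv_cancel₀ hj1])
  have h1 : ∏ i, (c i ^ k) ^ (((j : NNReal)⁻¹ : NNReal) : ℝ) = (∏ i, c i) ^ ((k : ℝ) / j) := by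
    rw [← NNReal.finsetProd_rpow]
    refine Finset.prod_congr rfl fun i _ => ?_
    rw [← NNReal.rpow_natCast, ← NNReal.rpow_mul]
    congr 1
  rw [h1, ← Finset.mul_sum] at h
  have h2 : (j : NNReal) * (∏ i, c i) ^ ((k : ℝ) / j) ≤ ∑ i, c i ^ k := by
    calc (j : NNReal) * (∏ i, c i) ^ ((k : ℝ) / j) ≤ j * ((j : NNReal)⁻¹ * ∑ i, c i ^ k) := by
          gcongr
      _ = ∑ i, c i ^ k := by
          rw [← mul_assoc, mul_inv_cancel₀ hj1, one_mul]
  have h3 : (∏ i, (c i : ℝ≥0∞)) ^ ((k : ℝ) / j) = (((∏ i, c i) ^ ((k : ℝ) / j) : NNReal) : ℝ≥0∞) := by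
    rw [← ENNReal.coe_finsetProd, ENNReal.coe_rpow_of_nonneg _ (by positivity)]
  rw [h3]
  calc (j : ℝ≥0∞) * (((∏ i, c i) ^ ((k : ℝ) / j) : NNReal) : ℝ≥0∞)
      = (((j : NNReal) * (∏ i, c i) ^ ((k : ℝ) / j) : NNReal) : ℝ≥0∞) := by
        rw [ENNReal.coe_mul, ENNReal.coe_natCast]
    _ ≤ ((∑ i, c i ^ k : NNReal) : ℝ≥0∞) := ENNReal.coe_le_coe.2 h2
    _ = ∑ i, (c i : ℝ≥0∞) ^ k := by
        rw [ENNReal.coe_finsetSum]
        simp only [ENNReal.coe_pow]

end Pool.Agent.Y982.HS
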