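import Pool.Agent.Y982.HS.Fin

/-!
# Markov chains with a general state space: path measures and hitting times of sets
-/

open MeasureTheory ProbabilityTheory Filter Topology
open scoped ENNReal

noncomputable section

namespace Pool.Agent.Y982.HS

variable {V : Type*} [MeasurableSpace V]

/-- The law (on the space of infinite paths) of the Markov chain with transition kernel `κ`
started at `u`: given the path up to time `n`, the next position has law `κ` of the current
position. -/
def chain (κ : Kernel V V) [IsMarkovKernel κ] (u : V) : Measure (ℕ → V) :=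
  Kernel.trajMeasure (X := fun _ => V) (Measure.dirac u)
    (fun n => κ.comap (fun path : (Finset.Iic n → V) => path ⟨n, Finset.mem_Iic.2 le_rfl⟩)
      (measurable_pi_apply _))

instance (κ : Kernel V V) [IsMarkovKernel κ] (u : V) : IsProbabilityMeasure (chain κ u) := by
  unfold chain; infer_instance

/-- The hitting time `min {t ≥ 0 : ω t ∈ A}` of a path (`∞` if `A` is never visited). -/
def hitTime (A : Set V) (ω : ℕ → V) : ℝ≥0∞ := ⨅ (t : ℕ) (_ : ω t ∈ A), (t : ℝ≥0∞)

/-- Expected joint hitting time of `A` for independent chains started at `u 0, ..., u (k-1)`. -/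
def jointHit (κ : Kernel V V) [IsMarkovKernel κ] (A : Set V) {k : ℕ} (u : Fin k → V) : ℝ≥0∞ :=
  ∫⁻ ω : Fin k → ℕ → V, ⨅ i, hitTime A (ω i) ∂(Measure.pi fun i => chain κ (u i))

/-- Supremum of the expected joint hitting time of `A` by `k` independent chains, over all
starting points `u 0, ..., u (k-1)`. -/
def jointHitMax (κ : Kernel V V) [IsMarkovKernel κ] (A : Set V) (k : ℕ) : ℝ≥0∞ :=
  ⨆ u : Fin k → V, jointHit κ A u

/-- Supremum of the expected joint hitting time of `A` by `k` independent chains which all start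
at the same point. -/
def commonHitMax (κ : Kernel V V) [IsMarkovKernel κ] (A : Set V) (k : ℕ) : ℝ≥0∞ :=
  ⨆ x : V, jointHit κ A (fun _ : Fin k => x)

/-- the event of avoiding `A` up to time `t` -/
def avoid (A : Set V) (t : ℕ) : Set (ℕ → V) := {ω | ∀ s ≤ t, ω s ∉ A}

theorem measurableSet_avoid {A : Set V} (hA : MeasurableSet A) (t : ℕ) :
    MeasurableSet (avoid A t) := by
  have : avoid A t = ⋂ s ∈ Finset.Iic t, (fun ω : ℕ → V => ω s) ⁻¹' Aᶜ := by
    ext ω; simp [avoid]
  rw [this]
  exact Finset.measurableSet_biInter _ fun s _ => (measurable_pi_apply s) hA.compl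

theorem iInf_eq_tsum' (A : Set ℕ) [DecidablePred fun t => ∀ s ≤ t, s ∉ A] :
    ⨅ (t : ℕ) (_ : t ∈ A), (t : ℝ≥0∞) = ∑' t : ℕ, if ∀ s ≤ t, s ∉ A then 1 else 0 := by
  classical
  by_cases h : ∃ t, t ∈ A
  · have hn := Nat.find_spec h
    set n := Nat.find h with hndef
    have hmin : ∀ s, s < n → s ∉ A := fun s hs => Nat.find_min h hs
    have h1 : ⨅ (t : ℕ) (_ : t ∈ A), (t : ℝ≥0∞) = n := by
      apply le_antisymm
      · exact iInf₂_le n hn
      · refine le_iInf₂ fun t ht => ?_
        have : n ≤ t := by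
          by_contra hlt
          exact hmin t (not_le.1 hlt) ht
        exact_mod_cast this
    have h2 : ∀ t, (∀ s ≤ t, s ∉ A) ↔ t < n := by
      intro t
      constructor
      · intro ht
        by_contra hle
        exact ht n (not_lt.1 hle) hn
      · intro ht s hs
        exact hmin s (lt_of_le_of_lt hs ht)
    rw [h1]
    simp_rw [h2]
    rw [tsum_eq_sum (s := Finset.range n)]
    · rw [Finset.sum_congr rfl (g := fun _ => (1 : ℝ≥0∞))]
      · simp
      · intro x hx; simp [Finset.mem_range.1 hx]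
    · intro b hb
      simp only [Finset.mem_range] at hb
      simp [hb]
  · push Not at h
    have : ∀ t : ℕ, (∀ s ≤ t, s ∉ A) ↔ True := fun t => by simp [h]
    simp only [this, if_true]
    simp [h]

theorem iInf_hitTime {k : ℕ} (A : Set V) (ω : Fin k → ℕ → V) :
    ⨅ i, hitTime A (ω i) =
      ∑' t : ℕ, Set.indicator {ω : Fin k → ℕ → V | ∀ i, ∀ s ≤ t, ω i s ∉ A}
        (fun _ => (1 : ℝ≥0∞)) ω := by
  classical
  have := iInf_eq_tsum' {t | ∃ i, ω i t ∈ A}
  unfold hitTime
  rw [iInf_comm]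
  have h2 : ∀ t : ℕ, (⨅ i, ⨅ (_ : ω i t ∈ A), (t : ℝ≥0∞))
      = ⨅ (_ : t ∈ {t | ∃ i, ω i t ∈ A}), (t : ℝ≥0∞) := by
    intro t
    simp [iInf_exists]
  simp_rw [h2, this]
  refine tsum_congr fun t => ?_
  rw [Set.indicator_apply]
  congr 1
  simp only [Set.mem_ofPred_eq, eq_iff_iff, not_exists]
  exact ⟨fun h i s hs => h s hs i, fun h s hs i => h i s hs⟩

theorem jointHit_eq (κ : Kernel V V) [IsMarkovKernel κ] {A : Set V} (hA : MeasurableSet A) {k : ℕ}
    (u : Fin k → V) : jointHit κ A u = ∑' t : ℕ, ∏ i, chain κ (u i) (avoid A t) := by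
  unfold jointHit
  simp_rw [iInf_hitTime]
  have hset : ∀ t : ℕ, {ω : Fin k → ℕ → V | ∀ i, ∀ s ≤ t, ω i s ∉ A}
      = Set.pi Set.univ (fun _ => avoid A t) := by
    intro t; ext ω; simp [avoid]
  have hm : ∀ t : ℕ, MeasurableSet {ω : Fin k → ℕ → V | ∀ i, ∀ s ≤ t, ω i s ∉ A} := by
    intro t
    rw [hset t]
    exact MeasurableSet.univ_pi fun i => measurableSet_avoid hA t
  rw [lintegral_tsum]
  · refine tsum_congr fun t => ?_
    rw [lintegral_indicator_const (hm t), one_mul, hset t, Measure.pi_pi]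
  · intro t
    exact (measurable_const.indicator (hm t)).aemeasurable

theorem map_zero (κ : Kernel V V) [IsMarkovKernel κ] (u : V) :
    (chain κ u).map (fun ω => ω 0) = Measure.dirac u := by
  unfold chain Kernel.trajMeasure
  have h0 : (fun ω : ℕ → V => ω 0)
      = (fun x : (Finset.Iic 0 → V) => x ⟨0, by simp⟩) ∘ (Preorder.frestrictLe 0) := by
    ext ω; rfl
  rw [h0, ← Measure.map_map (by fun_prop) (by fun_prop)]
  rw [Measure.map_comp _ _ (by fun_prop), Kernel.traj_map_frestrictLe, Kernel.partialTraj_self,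
    Measure.id_comp]
  rw [Measure.map_map (by fun_prop) (by fun_prop)]
  exact Measure.map_id (μ := Measure.dirac u)

theorem step_meas (κ : Kernel V V) [IsMarkovKernel κ] (u : V) (t : ℕ)
    {E : Set (Finset.Iic t → V)} (hE : MeasurableSet E) {B : Set V} (hB : MeasurableSet B) :
    chain κ u ((Preorder.frestrictLe t) ⁻¹' E ∩ {ω | ω (t + 1) ∈ B}) =
      ∫⁻ ω in (Preorder.frestrictLe t) ⁻¹' E, κ (ω t) B ∂(chain κ u) := by
  have key := congrArg (fun μ => μ (E ×ˢ B))
    (Kernel.map_frestrictLe_trajMeasure_compProd_eq_map_trajMeasure (X := fun _ => V)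
      (μ₀ := Measure.dirac u)
      (κ := fun n => κ.comap (fun path : (Finset.Iic n → V) => path ⟨n, Finset.mem_Iic.2 le_rfl⟩)
      (measurable_pi_apply _)) (a := t))
  beta_reduce at key
  rw [Measure.compProd_apply_prod hE hB, Measure.map_apply (by fun_prop)
    (hE.prod hB), setLIntegral_map hE (Kernel.measurable_coe _ hB) (by fun_prop)] at key
  unfold chain
  have hs : (fun x : ℕ → V => (Preorder.frestrictLe (π := fun _ => V) t x, x (t + 1))) ⁻¹' E ×ˢ B =
    (Preorder.frestrictLe (π := fun _ => V) t) ⁻¹' E ∩ {ω : ℕ → V | ω (t + 1) ∈ B} := by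
    ext ω; simp
  rw [hs] at key
  rw [← key]
  refine lintegral_congr fun ω => ?_
  rw [Kernel.comap_apply]
  rfl

theorem law (κ : Kernel V V) [IsMarkovKernel κ] {A : Set V} (hA : MeasurableSet A) (u : V)
    (t : ℕ) : ((chain κ u).restrict (avoid A t)).map (fun ω => ω t) = mu κ A u t := by
  induction t with
  | zero =>
    ext B hB
    rw [Measure.map_apply (measurable_pi_apply _) hB,
      Measure.restrict_apply ((measurable_pi_apply _) hB)]
    have h := congrArg (fun μ => μ (B \ A)) (map_zero κ u)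
    beta_reduce at h
    rw [Measure.map_apply (by fun_prop) (hB.diff hA)] at h
    have hs : (fun ω : ℕ → V => ω 0) ⁻¹' (B \ A) = (fun ω : ℕ → V => ω 0) ⁻¹' B ∩ avoid A 0 := by
      ext ω; simp [avoid]
    rw [hs] at h
    rw [h, mu, Measure.restrict_apply hB]
    rfl
  | succ t ih =>
    ext B hB
    rw [Measure.map_apply (measurable_pi_apply _) hB,
      Measure.restrict_apply ((measurable_pi_apply _) hB)]
    have hE : MeasurableSet {x : (Finset.Iic t → V) | ∀ s, x s ∉ A} := by
      have : {x : (Finset.Iic t → V) | ∀ s, x s ∉ A} = ⋂ s, (fun x => x s) ⁻¹' Aᶜ := by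
        ext x; simp
      rw [this]
      exact MeasurableSet.iInter fun s => (measurable_pi_apply s) hA.compl
    have hset : (fun ω : ℕ → V => ω (t + 1)) ⁻¹' B ∩ avoid A (t + 1) =
        (Preorder.frestrictLe (π := fun _ => V) t) ⁻¹' {x | ∀ s, x s ∉ A}
          ∩ {ω | ω (t + 1) ∈ B \ A} := by
      ext ω
      simp only [avoid, Set.mem_inter_iff, Set.mem_ofPred_eq, Set.mem_preimage, Set.mem_sdiff]
      constructor
      · rintro ⟨h1, h2⟩
        exact ⟨fun s => h2 s ((Finset.mem_Iic.1 s.2).trans (Nat.le_succ t)), h1, h2 _ le_rfl⟩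
      · rintro ⟨h1, h2, h4⟩
        refine ⟨h2, fun s hs => ?_⟩
        rcases Nat.lt_or_ge t s with h3 | h3
        · have : s = t + 1 := by omega
          subst this; exact h4
        · exact h1 ⟨s, Finset.mem_Iic.2 h3⟩
    have hset2 : (Preorder.frestrictLe (π := fun _ => V) t) ⁻¹' {x | ∀ s, x s ∉ A} = avoid A t := by
      ext ω
      simp only [avoid, Set.mem_ofPred_eq, Set.mem_preimage]
      constructor
      · intro h s hs
        exact h ⟨s, Finset.mem_Iic.2 hs⟩
      · intro h s
        exact h s (Finset.mem_Iic.1 s.2)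
    rw [hset, step_meas κ u t hE (hB.diff hA), hset2, mu, Measure.restrict_apply hB,
      show B ∩ Aᶜ = B \ A from rfl, Measure.bind_apply (hB.diff hA) κ.measurable.aemeasurable, ← ih,
      lintegral_map (Kernel.measurable_coe _ (hB.diff hA)) (measurable_pi_apply _)]

theorem chain_avoid (κ : Kernel V V) [IsMarkovKernel κ] {A : Set V} (hA : MeasurableSet A) (u : V)
    (t : ℕ) : chain κ u (avoid A t) = S κ A t u := by
  rw [← mu_univ hA, ← law κ hA, Measure.map_apply (measurable_pi_apply _) MeasurableSet.univ,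
    Set.preimage_univ, Measure.restrict_apply_univ]

theorem jointHit_ff (κ : Kernel V V) [IsMarkovKernel κ] {A : Set V} (hA : MeasurableSet A) {k : ℕ}
    (u : Fin k → V) : jointHit κ A u = ∑' t : ℕ, ff κ A u t := by
  rw [jointHit_eq κ hA]
  refine tsum_congr fun t => Finset.prod_congr rfl fun i _ => chain_avoid κ hA (u i) t

theorem HH_eq (κ : Kernel V V) [IsMarkovKernel κ] {A : Set V} (hA : MeasurableSet A) {k : ℕ} :
    HH κ A w1 k ≤ commonHitMax κ A k := by
  refine iSup₂_le fun x _ => ?_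
  refine le_trans (le_of_eq ?_) (le_iSup (fun x => jointHit κ A (fun _ : Fin k => x)) x)
  rw [jointHit_ff κ hA, tsum_w1]
  refine tsum_congr fun s => ?_
  simp [ff]

/-- `k h^k` is nondecreasing in `k`, for all chains and all targets. -/
theorem monotone_hit (κ : Kernel V V) [IsMarkovKernel κ] {A : Set V} (hA : MeasurableSet A)
    {j k : ℕ} (hj : 1 ≤ j) (hjk : j ≤ k) :
    (j : ℝ≥0∞) * jointHitMax κ A j ≤ k * commonHitMax κ A k := by
  unfold jointHitMax
  rw [ENNReal.mul_iSup]
  refine iSup_le fun u => ?_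
  rw [jointHit_ff κ hA]
  refine (basic hA hj hjk u).trans ?_
  gcongr
  exact HH_eq κ hA

/-- the sharp form -/
theorem sharp_hit (κ : Kernel V V) [IsMarkovKernel κ] {A : Set V} (hA : MeasurableSet A)
    (hne : A ≠ Set.univ) {j k : ℕ} (hj : 1 ≤ j) (hjk : 2 * j ≤ k) :
    (j : ℝ≥0∞) * jointHitMax κ A j + ((k - j : ℕ) : ℝ≥0∞) / 2 ≤ k * commonHitMax κ A k := by
  obtain ⟨x0, hx0⟩ := (Set.ne_univ_iff_exists_notMem A).1 hne
  have : Nonempty (Fin j → V) := ⟨fun _ => x0⟩
  unfold jointHitMax
  rw [ENNReal.mul_iSup, ENNReal.iSup_add]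
  refine iSup_le fun u => ?_
  rw [jointHit_ff κ hA]
  refine (sharp hA hx0 hj hjk u).trans ?_
  gcongr
  exact HH_eq κ hA

end Pool.Agent.Y982.HS
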